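import Pool.Agent.helper76.FG.Spec

set_option autoImplicit false

namespace Pool.Agent.FG

open Finset

theorem TTT_crt (a b c₁ c₂ : ℤ) (h : IsCoprime a b) : ∃ t : ℤ, a ∣ t - c₁ ∧ b ∣ t - c₂ := by
  obtain ⟨x, y, hxy⟩ := h
  refine ⟨c₁ * (y * b) + c₂ * (x * a), ⟨(c₂ - c₁) * x, ?_⟩, ⟨(c₁ - c₂) * y, ?_⟩⟩
  · linear_combination c₁ * hxy
  · linear_combination c₂ * hxy

theorem TTT_cop (m n : ℕ) (h : ∀ p : ℕ, p.Prime → p ∣ m → p ∣ n → False) : IsCoprime (m : ℤ) (n : ℤ) := by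
  rw [Nat.isCoprime_iff_coprime]
  exact Nat.coprime_of_dvd fun p hp hm hn => h p hp hm hn

theorem TTT_prod (s : Finset ℕ) (hs : ∀ q ∈ s, q.Prime) (p : ℕ) (hp : p.Prime) (h : p ∣ ∏ q ∈ s, q) : p ∈ s := by
  obtain ⟨q, hq, hpq⟩ := (Prime.dvd_finsetProd_iff hp.prime _).mp h
  rwa [(Nat.prime_dvd_prime_iff_eq hp (hs q hq)).mp hpq]

/-- **TTT** -/
theorem TTT : TTT_stmt := by
  classical
  intro u v K W hu hv hW huv huW hWv
  have hndvd : ∀ p : ℕ, p.Prime → (p : ℤ) ∣ u → ∀ x : ℕ, IsCoprime u (x : ℤ) → ¬ p ∣ x := by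
    intro p hp h1 x hx h2
    have h3 : IsUnit (p : ℤ) := hx.isUnit_of_dvd' h1 (Int.natCast_dvd_natCast.mpr h2)
    exact (Nat.prime_iff_prime_int.mp hp).not_isUnit h3
  have hN0 : K.factorial * W ≠ 0 := Nat.mul_ne_zero (Nat.factorial_ne_zero K) (by omega)
  set s₁ : Finset ℕ := (K.factorial * W).primeFactors.filter (fun p : ℕ => ¬ (p : ℤ) ∣ u ∧ ¬ p ∣ v) with hs₁
  set s₂ : Finset ℕ := (K.factorial * W).primeFactors.filter (fun p : ℕ => (p : ℤ) ∣ u) with hs₂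
  have hp₁ : ∀ q ∈ s₁, q.Prime := fun q hq => Nat.prime_of_mem_primeFactors (mem_filter.mp hq).1
  have hp₂ : ∀ q ∈ s₂, q.Prime := fun q hq => Nat.prime_of_mem_primeFactors (mem_filter.mp hq).1
  set s₃ : Finset ℕ := (range (K + 1)).filter (fun p : ℕ => p.Prime ∧ p ∣ v) with hs₃
  have hp₃ : ∀ q ∈ s₃, q.Prime := fun q hq => (mem_filter.mp hq).2.1
  have hr : rK v K = ∏ p ∈ s₃, p := rfl
  have hM : ∀ p : ℕ, p.Prime → p ∣ v * rK v K → p ∣ v := by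
    intro p hp h
    rcases (Nat.Prime.dvd_mul hp).mp h with h | h
    · exact h
    · rw [hr] at h
      exact (mem_filter.mp (TTT_prod s₃ hp₃ p hp h)).2.2
  have h12 : IsCoprime ((∏ q ∈ s₁, q : ℕ) : ℤ) ((∏ q ∈ s₂, q : ℕ) : ℤ) := by
    apply TTT_cop
    intro p hp h1 h2
    exact (mem_filter.mp (TTT_prod s₁ hp₁ p hp h1)).2.1 (mem_filter.mp (TTT_prod s₂ hp₂ p hp h2)).2
  obtain ⟨t₀, ht₀1, ht₀2⟩ := TTT_crt _ _ 0 1 h12
  have h3 : IsCoprime ((((∏ q ∈ s₁, q) * (∏ q ∈ s₂, q) : ℕ)) : ℤ) ((v * rK v K : ℕ) : ℤ) := by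
    apply TTT_cop
    intro p hp h1 h2
    have hpv := hM p hp h2
    rcases (Nat.Prime.dvd_mul hp).mp h1 with h | h
    · exact (mem_filter.mp (TTT_prod s₁ hp₁ p hp h)).2.2 hpv
    · exact hndvd p hp (mem_filter.mp (TTT_prod s₂ hp₂ p hp h)).2 v huv hpv
  obtain ⟨t, ht1, ht2⟩ := TTT_crt _ _ t₀ ((v : ℤ) - u) h3
  refine ⟨t, fun w hw hwW => ?_⟩
  obtain ⟨y, hy⟩ := ht2
  obtain ⟨z, hz⟩ := hw
  have hH : (v : ℤ) * (1 + rK v K * (y * w + z * ((v : ℤ) - u))) = u + t * w := by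
    push_cast at hy hz
    linear_combination (-(w : ℤ)) * hy - ((v : ℤ) - u) * hz
  refine ⟨1 + rK v K * (y * w + z * ((v : ℤ) - u)), hH, ?_⟩
  set H : ℤ := 1 + rK v K * (y * w + z * ((v : ℤ) - u)) with hHdef
  rw [Int.isCoprime_iff_gcd_eq_one]
  by_contra hg
  obtain ⟨p, hp, hpg⟩ := Nat.exists_prime_and_dvd hg
  have hpH : (p : ℤ) ∣ H := (Int.natCast_dvd_natCast.mpr hpg).trans (Int.gcd_dvd_left _ _)
  have hpKW' : (p : ℤ) ∣ ((K.factorial * W : ℕ) : ℤ) := (Int.natCast_dvd_natCast.mpr hpg).trans (Int.gcd_dvd_right _ _)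
  have hpKW : p ∣ K.factorial * W := Int.natCast_dvd_natCast.mp hpKW'
  have hpi := Nat.prime_iff_prime_int.mp hp
  have hpm : p ∈ (K.factorial * W).primeFactors := Nat.mem_primeFactors.mpr ⟨hp, hpKW, hN0⟩
  by_cases hpv : p ∣ v
  · have hpW : ¬ p ∣ W := fun h => by
      have := Nat.dvd_gcd h hpv
      rw [hWv] at this
      exact hp.one_lt.ne' (Nat.dvd_one.mp this)
    have hpK : p ≤ K := by
      rcases (Nat.Prime.dvd_mul hp).mp hpKW with h | h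
      · exact (Nat.Prime.dvd_factorial hp).mp h
      · exact absurd h hpW
    have hpr : p ∣ rK v K := by
      rw [hr]
      exact Finset.dvd_prod_of_mem (fun q => q) (mem_filter.mpr ⟨mem_range.mpr (by omega), hp, hpv⟩)
    have h1 : (p : ℤ) ∣ (rK v K : ℤ) * (y * w + z * ((v : ℤ) - u)) := Dvd.dvd.mul_right (Int.natCast_dvd_natCast.mpr hpr) _
    have h2 : (p : ℤ) ∣ 1 := by
      have := dvd_sub hpH h1
      rwa [hHdef, add_sub_cancel_right] at this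
    exact hpi.not_isUnit (isUnit_of_dvd_one h2)
  · by_cases hpu : (p : ℤ) ∣ u
    · have hp2 : (p : ℤ) ∣ ((∏ q ∈ s₂, q : ℕ) : ℤ) := Int.natCast_dvd_natCast.mpr (Finset.dvd_prod_of_mem (fun q => q) (mem_filter.mpr ⟨hpm, hpu⟩))
      have h1 : (p : ℤ) ∣ t - t₀ := by
        refine dvd_trans ?_ ht1
        push_cast
        push_cast at hp2
        exact Dvd.dvd.mul_left hp2 _
      have h2 : (p : ℤ) ∣ t₀ - 1 := hp2.trans ht₀2
      have h3 : (p : ℤ) ∣ w := by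
        have h4 : (w : ℤ) = (v : ℤ) * H - u - (t - t₀) * w - (t₀ - 1) * w := by rw [hH]; ring
        rw [h4]
        exact dvd_sub (dvd_sub (dvd_sub (hpH.mul_left _) hpu) (h1.mul_right _)) (h2.mul_right _)
      exact hndvd p hp hpu W huW (hwW p hp (Int.natCast_dvd_natCast.mp h3))
    · have hp1 : (p : ℤ) ∣ ((∏ q ∈ s₁, q : ℕ) : ℤ) := Int.natCast_dvd_natCast.mpr (Finset.dvd_prod_of_mem (fun q => q) (mem_filter.mpr ⟨hpm, hpu, hpv⟩))
      have h1 : (p : ℤ) ∣ t - t₀ := by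
        refine dvd_trans ?_ ht1
        push_cast
        push_cast at hp1
        exact Dvd.dvd.mul_right hp1 _
      have h2 : (p : ℤ) ∣ t₀ - 0 := hp1.trans ht₀1
      apply hpu
      have h4 : u = (v : ℤ) * H - (t - t₀) * w - (t₀ - 0) * w := by rw [hH]; ring
      rw [h4]
      exact dvd_sub (dvd_sub (hpH.mul_left _) (h1.mul_right _)) (h2.mul_right _)

end Pool.Agent.FG
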